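import Mathlib

/-!
# Extensions of simple `Z*`-algebras are `Z*`-algebras

Let `0 → B → A → C → 0` be a short exact sequence of C*-algebras in which `B` is a `Z*`-algebra
and `C` is a simple `Z*`-algebra. Then `A` is a `Z*`-algebra.

Proof. Identify `B` with the ideal `J = ker π`. Let `S` be the set of all `x ∈ A` for which there
is `s ∈ J` such that `s y = 0` implies `x y = 0` for all `y ∈ J`. It is a closed two-sided ideal of
`A` which contains `J`, so `S = A` or `S = J` by the simplicity of `C`. If `S = A` then each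
`a ∈ A` is a zero divisor because `s* s` is one in `J`. If `a ≥ 0` is not a zero divisor of `A`,
its image is one in `C`, so `a b ∈ J` for some `b ∉ J`; then `s = a b` shows `b ∈ S`.
-/

set_option autoImplicit false

namespace Pool.Agent.Results.MP_6f16c7_an.Extensions

open Set Filter Topology

/-- `a` is a zero divisor of `A`: there is a nonzero `b` with `a b = 0` or `b a = 0`. -/
def IsZeroDivisor {A : Type*} [NonUnitalCStarAlgebra A] (a : A) : Prop :=
  ∃ b : A, b ≠ 0 ∧ (a * b = 0 ∨ b * a = 0)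

/-- `A` is a `Z*`-algebra: every positive element of `A` (that is, every element of the form
`b* b`) is a zero divisor in `A`. -/
def IsZStarAlgebra (A : Type*) [NonUnitalCStarAlgebra A] : Prop :=
  ∀ a : A, (∃ b : A, a = star b * b) → IsZeroDivisor a

/-- `A` is simple: it is nonzero and its only closed two-sided ideals are `{0}` and `A`. -/
def IsSimpleCStarAlgebra (A : Type*) [NonUnitalCStarAlgebra A] : Prop :=
  Nontrivial A ∧ ∀ I : Submodule ℂ A, IsClosed (I : Set A) →
    (∀ a : A, ∀ x ∈ I, a * x ∈ I ∧ x * a ∈ I) → I = ⊥ ∨ I = ⊤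

section

/-- If `∑ cₙ sₙ* sₙ y = 0` with `cₙ > 0` then `sₙ y = 0` for all `n`. -/
theorem sum_zero {A : Type*} [NonUnitalCStarAlgebra A] (s : ℕ → A) (c : ℕ → ℝ)
    (hc : ∀ n, 0 < c n) (T y : A) (hT : HasSum (fun n => (c n : ℂ) • (star (s n) * s n)) T)
    (h : T * y = 0) (n : ℕ) : s n * y = 0 := by
  let _ : PartialOrder A := CStarAlgebra.spectralOrder A
  let _ : StarOrderedRing A := CStarAlgebra.spectralOrderedRing A
  have h1 : HasSum (fun n => star y * (((c n : ℂ) • (star (s n) * s n)) * y)) (star y * (T * y)) :=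
    (hT.mul_right y).mul_left (star y)
  rw [h, mul_zero] at h1
  have h2 : ∀ n, star y * (((c n : ℂ) • (star (s n) * s n)) * y)
      = star (((Real.sqrt (c n) : ℝ) : ℂ) • (s n * y)) * (((Real.sqrt (c n) : ℝ) : ℂ) • (s n * y)) := by
    intro n
    have h3 : ((Real.sqrt (c n) : ℝ) : ℂ) * ((Real.sqrt (c n) : ℝ) : ℂ) = (c n : ℂ) := by
      rw [← Complex.ofReal_mul, Real.mul_self_sqrt (hc n).le]
    simp only [star_smul, star_mul, smul_mul_assoc, mul_smul_comm, smul_smul, mul_assoc]
    rw [show (star ((Real.sqrt (c n) : ℝ) : ℂ)) = ((Real.sqrt (c n) : ℝ) : ℂ) from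
      Complex.conj_ofReal _, h3]
  have h4 : (fun n => star y * (((c n : ℂ) • (star (s n) * s n)) * y)) = 0 := by
    refine (hasSum_zero_iff_of_nonneg fun n => ?_).1 h1
    rw [h2 n]
    exact star_mul_self_nonneg _
  have h5 := congrFun h4 n
  simp only [Pi.zero_apply] at h5
  rw [h2 n, CStarRing.star_mul_self_eq_zero_iff, smul_eq_zero] at h5
  rcases h5 with h5 | h5
  · exact absurd h5 (by
      have := Real.sqrt_pos.2 (hc n)
      exact_mod_cast this.ne')
  · exact h5

/-- Countably many left annihilators in a closed left ideal contain a single one. -/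
theorem combine {A : Type*} [NonUnitalCStarAlgebra A] (J : Submodule ℂ A)
    (hJc : IsClosed (J : Set A)) (hJ : ∀ a : A, ∀ x ∈ J, a * x ∈ J) (s : ℕ → A)
    (hs : ∀ n, s n ∈ J) :
    ∃ T ∈ J, ∀ y, T * y = 0 → ∀ n, s n * y = 0 := by
  set c : ℕ → ℝ := fun n => (1 / 2) ^ n * (1 + ‖s n‖ * ‖s n‖)⁻¹ with hcdef
  have hc : ∀ n, 0 < c n := fun n => by
    have : 0 ≤ ‖s n‖ * ‖s n‖ := mul_self_nonneg _
    positivity
  have hsum : Summable (fun n => (c n : ℂ) • (star (s n) * s n)) := by
    refine Summable.of_norm_bounded (g := fun n => (1 / 2 : ℝ) ^ n) summable_geometric_two ?_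
    intro n
    have h0 : 0 ≤ ‖s n‖ * ‖s n‖ := mul_self_nonneg _
    rw [norm_smul, CStarRing.norm_star_mul_self, Complex.norm_real, Real.norm_of_nonneg (hc n).le,
      hcdef]
    simp only
    rw [mul_assoc]
    refine mul_le_of_le_one_right (by positivity) ?_
    rw [inv_mul_le_iff₀ (by positivity)]
    linarith
  refine ⟨_, hJc.mem_of_tendsto hsum.hasSum (Eventually.of_forall fun F => ?_),
    fun y hy n => sum_zero s c hc _ y hsum.hasSum hy n⟩
  exact J.sum_mem fun n _ => J.smul_mem _ (hJ _ _ (hs n))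

variable {A B C : Type*} [NonUnitalCStarAlgebra A] [NonUnitalCStarAlgebra B]
  [NonUnitalCStarAlgebra C]

/-- The ideal of all `x` whose annihilator in `J` contains the annihilator of some `s ∈ J`. -/
def annIdeal (J : Submodule ℂ A) (hJc : IsClosed (J : Set A))
    (hJ : ∀ a : A, ∀ x ∈ J, a * x ∈ J) : Submodule ℂ A where
  carrier := {x | ∃ s ∈ J, ∀ y ∈ J, s * y = 0 → x * y = 0}
  zero_mem' := ⟨0, J.zero_mem, fun y _ _ => zero_mul y⟩
  add_mem' := by
    rintro x x' ⟨s, hs, h⟩ ⟨s', hs', h'⟩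
    obtain ⟨T, hT, hT'⟩ := combine J hJc hJ (fun n => if n = 0 then s else s') (fun n => by
      split_ifs
      · exact hs
      · exact hs')
    refine ⟨T, hT, fun y hy hTy => ?_⟩
    have h1 := hT' y hTy 0
    have h2 := hT' y hTy 1
    simp only [if_true, one_ne_zero, if_false] at h1 h2
    rw [add_mul, h y hy h1, h' y hy h2, add_zero]
  smul_mem' := by
    rintro c x ⟨s, hs, h⟩
    exact ⟨s, hs, fun y hy hsy => by rw [smul_mul_assoc, h y hy hsy, smul_zero]⟩

theorem annIdeal_closed (J : Submodule ℂ A) (hJc : IsClosed (J : Set A))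
    (hJ : ∀ a : A, ∀ x ∈ J, a * x ∈ J) : IsClosed (annIdeal J hJc hJ : Set A) := by
  refine IsSeqClosed.isClosed fun x x₀ hx hlim => ?_
  choose s hs h using hx
  obtain ⟨T, hT, hT'⟩ := combine J hJc hJ s hs
  refine ⟨T, hT, fun y hy hTy => ?_⟩
  have h1 : Tendsto (fun n => x n * y) atTop (𝓝 (x₀ * y)) := hlim.mul_const y
  have h2 : (fun n => x n * y) = fun _ => 0 := funext fun n => h n y hy (hT' y hTy n)
  rw [h2] at h1
  exact (tendsto_nhds_unique h1 tendsto_const_nhds)

/-- **Extensions of simple `Z*`-algebras are `Z*`-algebras.** Let `0 → B → A → C → 0` be a short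
exact sequence of C*-algebras and `*`-homomorphisms such that `B` is a `Z*`-algebra and `C` is a
simple `Z*`-algebra. Then `A` is a `Z*`-algebra. (Simplicity of `B` is not needed.) -/
theorem result (ι : B →⋆ₙₐ[ℂ] A) (π : A →⋆ₙₐ[ℂ] C) (hι : Function.Injective ι)
    (hπ : Function.Surjective π) (hex : ∀ a : A, π a = 0 ↔ ∃ b : B, ι b = a)
    (hB : IsZStarAlgebra B) (hC : IsZStarAlgebra C) (hCs : IsSimpleCStarAlgebra C) :
    IsZStarAlgebra A := by
  -- the ideal `J = ker π`
  have hπc : Continuous π := by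
    let _ : PartialOrder A := CStarAlgebra.spectralOrder A
    let _ : StarOrderedRing A := CStarAlgebra.spectralOrderedRing A
    let _ : PartialOrder C := CStarAlgebra.spectralOrder C
    let _ : StarOrderedRing C := CStarAlgebra.spectralOrderedRing C
    exact map_continuous π
  let J : Submodule ℂ A := LinearMap.ker (π : A →ₗ[ℂ] C)
  have memJ : ∀ x, x ∈ J ↔ π x = 0 := fun x => Iff.rfl
  have hJc : IsClosed (J : Set A) := isClosed_singleton.preimage hπc
  have hJl : ∀ a : A, ∀ x ∈ J, a * x ∈ J := fun a x hx => by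
    rw [memJ] at hx ⊢
    rw [map_mul, hx, mul_zero]
  have hJr : ∀ a : A, ∀ x ∈ J, x * a ∈ J := fun a x hx => by
    rw [memJ] at hx ⊢
    rw [map_mul, hx, zero_mul]
  rintro a ⟨a₀, ha⟩
  by_contra hcon
  have hcon1 : ∀ y, a * y = 0 → y = 0 := fun y hy => by
    by_contra h0
    exact hcon ⟨y, h0, Or.inl hy⟩
  have hsa : star a = a := by rw [ha, star_mul, star_star]
  -- the ideal `S`
  let S : Submodule ℂ A := annIdeal J hJc hJl
  have hSc : IsClosed (S : Set A) := annIdeal_closed J hJc hJl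
  have hSl : ∀ z : A, ∀ x ∈ S, z * x ∈ S := by
    rintro z x ⟨s, hs, h⟩
    exact ⟨s, hs, fun y hy hsy => by rw [mul_assoc, h y hy hsy, mul_zero]⟩
  have hSr : ∀ z : A, ∀ x ∈ S, x * z ∈ S := by
    rintro z x ⟨s, hs, h⟩
    refine ⟨s * z, hJr z s hs, fun y hy hsy => ?_⟩
    rw [mul_assoc] at hsy ⊢
    exact h (z * y) (hJl z y hy) hsy
  have hJS : J ≤ S := fun x hx => ⟨x, hx, fun y _ h => h⟩
  -- the image of `S` in `C`
  let I : Submodule ℂ C := S.map (π : A →ₗ[ℂ] C)
  have memI : ∀ x : A, π x ∈ I ↔ x ∈ S := by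
    intro x
    constructor
    · rintro ⟨x', hx', hxx⟩
      have h1 : x - x' ∈ J := by
        rw [memJ, map_sub, sub_eq_zero]
        exact hxx.symm
      have h2 := S.add_mem (hJS h1) hx'
      rwa [sub_add_cancel] at h2
    · intro hx
      exact ⟨x, hx, rfl⟩
  have hopen : IsOpenMap π := by
    let π' : A →L[ℂ] C := ⟨(π : A →ₗ[ℂ] C), hπc⟩
    exact π'.isOpenMap hπ
  have hIc : IsClosed (I : Set C) := by
    have hq : IsQuotientMap π := hopen.isQuotientMap hπc hπ
    rw [← hq.isClosed_preimage]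
    have : (π ⁻¹' (I : Set C)) = (S : Set A) := by
      ext x
      exact memI x
    rw [this]
    exact hSc
  have hIideal : ∀ c : C, ∀ x ∈ I, c * x ∈ I ∧ x * c ∈ I := by
    intro c x hx
    obtain ⟨c', rfl⟩ := hπ c
    obtain ⟨x', rfl⟩ := hπ x
    rw [memI] at hx
    rw [← map_mul, ← map_mul, memI, memI]
    exact ⟨hSl _ _ hx, hSr _ _ hx⟩
  rcases hCs.2 I hIc hIideal with hI | hI
  · -- `S = J`
    obtain ⟨c, hc0, hc⟩ := hC (π a) ⟨π a₀, by rw [ha, map_mul, map_star]⟩
    have key : ∃ b : A, b ∉ J ∧ a * b ∈ J := by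
      obtain ⟨b, rfl⟩ := hπ c
      rcases hc with hc | hc
      · exact ⟨b, fun h => hc0 ((memJ b).1 h), by rw [memJ, map_mul, hc]⟩
      · refine ⟨star b, fun h => hc0 ?_, ?_⟩
        · rw [memJ, map_star, star_eq_zero] at h
          exact h
        · rw [memJ]
          have : a * star b = star (b * a) := by rw [star_mul, hsa]
          rw [this, map_star, map_mul, hc, star_zero]
    obtain ⟨b, hb, hab⟩ := key
    have hbS : b ∈ S := ⟨a * b, hab, fun y _ h => hcon1 _ (by rw [← mul_assoc]; exact h)⟩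
    have h1 : π b ∈ I := (memI b).2 hbS
    rw [hI, Submodule.mem_bot] at h1
    exact hb h1
  · -- `S = A`
    have haS : a ∈ S := by
      rw [← memI, hI]
      exact Submodule.mem_top
    obtain ⟨s, hs, h⟩ := haS
    obtain ⟨t, rfl⟩ := (hex s).1 hs
    obtain ⟨b, hb0, hb⟩ := hB (star t * t) ⟨t, rfl⟩
    have key : ∃ y : B, y ≠ 0 ∧ t * y = 0 := by
      rcases hb with hb | hb
      · refine ⟨b, hb0, ?_⟩
        rw [← CStarRing.star_mul_self_eq_zero_iff, star_mul, mul_assoc, ← mul_assoc (star t), hb,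
          mul_zero]
      · refine ⟨star b, fun h => hb0 (star_eq_zero.1 h), ?_⟩
        rw [← CStarRing.star_mul_self_eq_zero_iff, star_mul, star_star, mul_assoc,
          ← mul_assoc (star t), ← mul_assoc b, hb, zero_mul]
    obtain ⟨y, hy0, hy⟩ := key
    have h1 : a * ι y = 0 := by
      refine h (ι y) ?_ ?_
      · rw [memJ, hex]
        exact ⟨y, rfl⟩
      · rw [← map_mul, hy, map_zero]
    have h2 := hcon1 _ h1
    exact hy0 (hι (by rw [h2, map_zero]))

end

end Pool.Agent.Results.MP_6f16c7_an.Extensions
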